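import Pool.Agent.helper32.EXT.Spec7

set_option autoImplicit false

open Finset

namespace Pool.Agent.EXT

open Pool.Agent.EXC

theorem YCF_smul {F : Type} [Field F] (c t : F) (a v : Lm C6 F) :
    xe C6 (c • a) t v = xe C6 a (c * t) v := by
  unfold xe
  rw [br_smul_left, fm_smul_left, smul_smul, smul_smul]
  have e1 : t * c = c * t := mul_comm _ _
  have e2 : t ^ 2 * (c * fm C6 a v) * c = (c * t) ^ 2 * fm C6 a v := by ring
  rw [e1, e2]

theorem YCF_zero {F : Type} [Field F] (a v : Lm C6 F) : xe C6 a 0 v = v := by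
  unfold xe
  rw [zero_smul, add_zero, zero_pow two_ne_zero, zero_mul, zero_smul, add_zero]

theorem YCF_one {K : Type} [Field K] {τ : K ≃+* K} {a : Lm C6 K} {f : GF τ}
    (hf : IsF τ a 0 (f : Equiv.Perm (LT τ))) : f = 1 := by
  refine Subtype.ext (Equiv.ext fun v => Subtype.ext ?_)
  rw [hf v, YCF_zero]
  rfl

theorem YCF_one' {K : Type} [Field K] {τ : K ≃+* K} (a : Lm C6 K) :
    IsF τ a 0 (((1 : GF τ) : GF τ) : Equiv.Perm (LT τ)) := by
  intro v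
  rw [YCF_zero]
  rfl

theorem YCF (hGEF : GEF_stmt) (hGFX : GFX_stmt) (hTFS : TFS_stmt) : YCF_stmt := by
  intro K _ τ hτ x hRA hx
  obtain ⟨a, a', m, ha, ha', hIm, hTp, hm⟩ := hGEF K τ hτ x hRA hx
  have hX := (hGFX K τ hτ).2 a ha
  obtain ⟨t0, ht0, ht0X⟩ := hX.1 1 (map_one τ)
  set t : GF τ := ⟨t0, ht0⟩ with htdef
  have htX : IsF τ a 1 (t : Equiv.Perm (LT τ)) := ht0X
  obtain ⟨s, hsτ, hs⟩ := (hIm t).1 ⟨1, map_one τ, htX⟩
  have hs0 : s ≠ 0 := by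
    intro h0
    rw [h0] at hs
    have h2 : x t = 1 := YCF_one hs
    have h3 : t = 1 := by
      apply x.injective
      rw [h2, map_one]
    rw [h3] at htX
    exact one_ne_zero (hX.2.2.2.1 1 0 _ htX (YCF_one' a))
  have hneg : τ (-1 : K) = -1 := by rw [map_neg, map_one]
  have hTp2 : TpS τ (s • a') ((-1 : K) • a) m :=
    (hTFS K τ hτ a' a m (hTFS K τ hτ a a' m hTp).2.2.1).2.2.2.2.1 s (-1) hsτ hneg hs0
      (neg_ne_zero.2 one_ne_zero)
  have hinv : IsF τ ((-1 : K) • a) 1 ((t⁻¹ : GF τ) : Equiv.Perm (LT τ)) := by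
    obtain ⟨h, hh, hhX⟩ := hX.1 (-1) hneg
    have h1 := hX.2.2.1 1 (-1) _ _ htX hhX
    rw [add_neg_cancel] at h1
    have h2 : t * ⟨h, hh⟩ = 1 := YCF_one (f := t * ⟨h, hh⟩) h1
    have h3 : t⁻¹ = ⟨h, hh⟩ := inv_eq_of_mul_eq_one_right h2
    intro v
    rw [h3]
    change ((h v : LT τ) : Lm C6 K) = _
    rw [hhX v, YCF_smul, mul_one]
  refine ⟨t, s • a', (-1 : K) • a, m, hm, hTp2, x t, t⁻¹, ?_, hinv, rfl⟩
  intro v
  rw [hs v, YCF_smul, mul_one]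

end Pool.Agent.EXT
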