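import Pool.Agent.helper17.EXT.SpecJ

set_option autoImplicit false

open Finset

namespace Pool.Agent.EXT

open Pool.Agent.EXC

theorem JLS_neg (hRTF : RTF_stmt) {β : Fin 6 → ℤ} (h : LR β) : LR (-β) := by
  refine ⟨?_, ?_⟩
  · rw [ip_neg_left, ip_neg_right, neg_neg]
    exact h.1
  · rw [hRTF.2.2.2.1, h.2]

theorem JLS (hJQF : JQF_stmt) (hPCS : PCS_stmt) (hESF : ESF_stmt) (hSGR : SGR_stmt) (hRTF : RTF_stmt) : JLS_stmt := by
  intro K _ h20
  have hτ : ∀ x : K, (RingEquiv.refl K) ((RingEquiv.refl K) x) = x := fun _ => rfl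
  have hG := (hSGR K (RingEquiv.refl K) hτ).2.2.2.2.2
  have hE := hESF K (RingEquiv.refl K) hτ
  have hmem : ∀ g ∈ GS (RingEquiv.refl K), ∀ β, LR β → g (E C6 β) ∈ LT (RingEquiv.refl K) := by
    intro g hg β hβ
    change si (RingEquiv.refl K) (g (E C6 β)) = g (E C6 β)
    rw [(hG g hg).2.2, (hE.2 _ (hE.1 β hβ)).2.2.1]
  refine ⟨?_, ?_⟩
  · intro a t f ha hf h hh γ hγ hi
    obtain ⟨g, hg, β, hβ, c, -, hc, rfl⟩ := ha
    have hβ' := JLS_neg hRTF hβ
    have ha : ExS (RingEquiv.refl K) (c • g (E C6 β)) := ⟨g, hg, β, hβ, c, rfl, hc, rfl⟩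
    have h1 := (hJQF K h20).1 _ t f ha hf ⟨g (E C6 (-β)), hmem g hg _ hβ'⟩
    have h2 := (hJQF K h20).2.1 h hh γ hγ f hi ⟨g (E C6 (-β)), hmem g hg _ hβ'⟩
    rw [h2, fm_smul_left, (hG g hg).2.1.fm, fm_E_E C6 hβ.1 hβ'.1, if_pos rfl, mul_one] at h1
    have h3 : t ^ 2 = 0 := (mul_eq_zero.1 h1.symm).resolve_right (pow_ne_zero 2 hc)
    exact pow_eq_zero_iff two_ne_zero |>.1 h3
  · intro a a' t t' ha ha' ht hv
    obtain ⟨m, -, -, k, hk, β, hβ, -, c, c', -, -, hc, hc', e, e'⟩ := hPCS K (RingEquiv.refl K) hτ a a' ha ha'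
    have hth : LR th := hRTF.2.2.2.2.2.2.2.2.2.2.2.2.2.1
    have hth' := JLS_neg hRTF hth
    have hk' : k⁻¹ ∈ GS (RingEquiv.refl K) := inv_mem hk
    have hkv : k (k⁻¹ (E C6 (-th) : Lm C6 K)) = E C6 (-th) := k.apply_symm_apply _
    have h1 := hv (k⁻¹ (E C6 (-th))) (hmem k⁻¹ hk' _ hth')
    rw [← (hG k hk).2.1.fm a, ← (hG k hk).2.1.fm a', hkv, e, e', fm_smul_left, fm_smul_left, fm_E_E C6 hth.1 hth'.1,
      fm_E_E C6 hβ.1 hth'.1, if_pos rfl, mul_one] at h1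
    by_cases hb : (-th : Fin 6 → ℤ) = -β
    · have hb' : β = th := (neg_injective hb).symm
      rw [if_pos hb, mul_one] at h1
      have h2 : (t * c - t' * c') ^ 2 = 0 := by
        linear_combination h1 + (t' ^ 2 * c' ^ 2 - t * c * t' * c') * h20
      have h3 : t * c = t' * c' := by
        have := pow_eq_zero_iff two_ne_zero |>.1 h2
        exact sub_eq_zero.1 this
      apply k.injective
      rw [map_smul, map_smul, e, e', hb', smul_smul, smul_smul, h3]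
    · exfalso
      rw [if_neg hb, mul_zero, zero_pow two_ne_zero, mul_zero] at h1
      rcases mul_eq_zero.1 h1 with h2 | h2
      · exact ht (pow_eq_zero_iff two_ne_zero |>.1 h2)
      · exact hc (pow_eq_zero_iff two_ne_zero |>.1 h2)

end Pool.Agent.EXT
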